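import Pool.Agent.N102.FL.LStm

/-!
Project FL, second part: residues of monomials.
-/

set_option autoImplicit false

universe u

open IsLocalRing

namespace Pool.Agent.N433.FL

open Pool.Agent.N102.FL (S_PT)

namespace Pt

variable {K : Type u} [Field K] (V : ValuationSubring K) {J : Type} [Fintype J] (y : J → K)

/-- monomials -/
def mon (m : J → ℤ) : K := ∏ j, y j ^ m j

theorem mon_ne (hy : ∀ j, y j ≠ 0) (m : J → ℤ) : mon y m ≠ 0 :=
  Finset.prod_ne_zero_iff.2 fun j _ => zpow_ne_zero _ (hy j)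

theorem mon_add (hy : ∀ j, y j ≠ 0) (m m' : J → ℤ) : mon y (m + m') = mon y m * mon y m' := by
  unfold mon
  rw [← Finset.prod_mul_distrib]
  exact Finset.prod_congr rfl fun j _ => zpow_add₀ (hy j) _ _

theorem mon_zero : mon y (0 : J → ℤ) = 1 := by
  unfold mon
  simp

theorem mon_smul (n : ℤ) (m : J → ℤ) : mon y (n • m) = mon y m ^ n := by
  unfold mon
  rw [← Finset.prod_zpow]
  refine Finset.prod_congr rfl fun j _ => ?_
  rw [Pi.smul_apply, smul_eq_mul, mul_comm, zpow_mul]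

/-- the exponents of the units -/
def M₀ (hy : ∀ j, y j ≠ 0) : Submodule ℤ (J → ℤ) where
  carrier := {m | V.valuation (mon y m) = 1}
  add_mem' := by
    intro a b ha hb
    rw [Set.mem_ofPred_eq] at ha hb ⊢
    rw [mon_add y hy, map_mul, ha, hb, one_mul]
  zero_mem' := by
    rw [Set.mem_ofPred_eq, mon_zero, map_one]
  smul_mem' := by
    intro n a ha
    rw [Set.mem_ofPred_eq] at ha ⊢
    rw [mon_smul, map_zpow₀, ha, one_zpow]

theorem mem_M₀ (hy : ∀ j, y j ≠ 0) (m : J → ℤ) : m ∈ M₀ V y hy ↔ V.valuation (mon y m) = 1 :=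
  Iff.rfl

theorem pow_eq_one {Γ : Type u} [LinearOrderedCommGroupWithZero Γ] {x : Γ} {n : ℕ} (hn : n ≠ 0)
    (h : x ^ n = 1) : x = 1 := by
  rcases lt_trichotomy x 1 with h1 | h1 | h1
  · exact absurd h (ne_of_lt (pow_lt_one₀ zero_le h1 hn))
  · exact h1
  · exact absurd h (ne_of_gt (one_lt_pow₀ h1 hn))

theorem tf (hy : ∀ j, y j ≠ 0) : Module.IsTorsionFree ℤ ((J → ℤ) ⧸ M₀ V y hy) := by
  constructor
  intro r hr a b h
  have hr0 : r ≠ 0 := hr.ne_zero
  have h1 : r • (a - b) = 0 := by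
    rw [smul_sub]
    exact sub_eq_zero.2 h
  rw [← sub_eq_zero]
  obtain ⟨m, hm⟩ := Submodule.Quotient.mk_surjective _ (a - b)
  rw [← hm] at h1 ⊢
  rw [← Submodule.Quotient.mk_smul, Submodule.Quotient.mk_eq_zero, mem_M₀, mon_smul,
    map_zpow₀] at h1
  rw [Submodule.Quotient.mk_eq_zero, mem_M₀]
  obtain ⟨n, hn⟩ := Int.eq_ofNat_of_zero_le (abs_nonneg r)
  have hn0 : n ≠ 0 := by
    rintro rfl
    exact hr0 (abs_eq_zero.1 hn)
  apply pow_eq_one hn0
  rcases abs_choice r with h2 | h2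
  · rw [← zpow_natCast, ← hn, h2, h1]
  · rw [← zpow_natCast, ← hn, h2, zpow_neg, h1, inv_one]

theorem retr (hy : ∀ j, y j ≠ 0) :
    ∃ r : (J → ℤ) →ₗ[ℤ] M₀ V y hy, ∀ m : M₀ V y hy, r m = m := by
  have := tf V y hy
  obtain ⟨s, hs⟩ := Module.projective_lifting_property (M₀ V y hy).mkQ LinearMap.id
    (Submodule.mkQ_surjective _)
  have hs' : ∀ q, (M₀ V y hy).mkQ (s q) = q := fun q => LinearMap.congr_fun hs q
  refine ⟨LinearMap.codRestrict (M₀ V y hy) (LinearMap.id - s ∘ₗ (M₀ V y hy).mkQ) ?_, ?_⟩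
  · intro m
    have h0 : (LinearMap.id - s ∘ₗ (M₀ V y hy).mkQ : (J → ℤ) →ₗ[ℤ] (J → ℤ)) m ∈
        LinearMap.ker (M₀ V y hy).mkQ := by
      rw [LinearMap.mem_ker, LinearMap.sub_apply, map_sub, LinearMap.comp_apply, hs',
        LinearMap.id_apply, sub_self]
    rwa [Submodule.ker_mkQ] at h0
  · intro m
    apply Subtype.ext
    rw [LinearMap.codRestrict_apply, LinearMap.sub_apply, LinearMap.comp_apply,
      LinearMap.id_apply]
    have h1 : (M₀ V y hy).mkQ (m : J → ℤ) = 0 := by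
      rw [← LinearMap.mem_ker, Submodule.ker_mkQ]
      exact m.2
    rw [h1, map_zero, sub_zero]

theorem mem_V (hy : ∀ j, y j ≠ 0) (m : M₀ V y hy) : mon y (m : J → ℤ) ∈ V :=
  (V.valuation_le_one_iff _).1 (le_of_eq m.2)

/-- the residues of the units -/
noncomputable def psi (hy : ∀ j, y j ≠ 0) : M₀ V y hy →+ Additive (ResidueField V)ˣ :=
  AddMonoidHom.mk' (fun m => Additive.ofMul (Units.mk0 (residue V ⟨mon y (m : J → ℤ),
    mem_V V y hy m⟩) (by
      rw [residue_ne_zero_iff_isUnit, V.valuation_eq_one_iff]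
      exact m.2))) (by
    intro a b
    apply Additive.toMul.injective
    apply Units.ext
    show residue V _ = residue V _ * residue V _
    rw [← map_mul]
    congr 1
    exact Subtype.ext (mon_add y hy _ _))

theorem psi_apply (hy : ∀ j, y j ≠ 0) (m : M₀ V y hy) :
    ((Additive.toMul (psi V y hy m) : (ResidueField V)ˣ) : ResidueField V) =
      residue V ⟨mon y (m : J → ℤ), mem_V V y hy m⟩ := rfl

end Pt

open Pt in
theorem t_pt : S_PT.{u} := by
  classical
  intro K _ V J _ y hy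
  obtain ⟨r, hr⟩ := retr V y hy
  refine ⟨fun j => ((Additive.toMul (psi V y hy (r (Pi.single j 1))) : (ResidueField V)ˣ) :
    ResidueField V), fun j => Units.ne_zero _, ?_⟩
  intro m hm hm1
  have h1 : psi V y hy ⟨m, hm1⟩ = ∑ j, m j • psi V y hy (r (Pi.single j 1)) := by
    have h2 : r m = ⟨m, hm1⟩ := hr ⟨m, hm1⟩
    have h3 : m = ∑ j, m j • (Pi.single j 1 : J → ℤ) := by
      funext i
      rw [Finset.sum_apply]
      simp [Pi.single_apply]
    rw [← h2]
    conv_lhs => rw [h3]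
    rw [map_sum, map_sum]
    refine Finset.sum_congr rfl fun j _ => ?_
    rw [map_zsmul, map_zsmul]
  have h4 := congrArg (fun a : Additive (ResidueField V)ˣ =>
    ((Additive.toMul a : (ResidueField V)ˣ) : ResidueField V)) h1
  simp only [psi_apply, toMul_sum, toMul_zsmul, Units.coe_prod, Units.val_zpow_eq_zpow_val] at h4
  exact h4

end Pool.Agent.N433.FL
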